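import Pool.Agent.TH776.FC.Main
import Pool.Agent.TH776.FM.MTDefs

/-!
# Tate classes on products of powers of simple abelian varieties over finite fields: combinations of
# conjugate slope functions with few values prime to some prime number

The definitions used in the statement are in `Pool/Agent/TH776/FC/Defs.lean`,
`Pool/Agent/TH776/FS/Defs.lean`, `Pool/Agent/TH776/FM/Defs.lean` and `Pool/Agent/W527/TateDefs.lean`
(a file of the starting repository: `WeilNumber`, `FrobSpace`, `IsOfType`, `productOf`, `Coh`,
`IsTate`, `TRing`).

Let `A` be a simple abelian variety over the field with `q = p ^ m` elements, `π` its Weil number,
`K = ℚ(π)`, a CM field of any degree, with any Galois group. For an embedding `τ` of `K` in an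
algebraic closure of `ℚ_p` let `dev τ` be the deviation `2 v(τ π) - m` of the slope from the middle
slope. We consider functions `v` with integral values on the embeddings which are combinations of
conjugates of `dev`, that is of functions `τ ↦ dev (σ τ)` with automorphisms `σ` of the algebraic
closure (`IsCombination`). The condition on `π` (`FewCombined`) is one of the following:

* for some prime number `r` and some `v` the values of `v` prime to `r` are those at one pair of
  conjugate embeddings; or the pairs `x`, `y` of embeddings for which the values prime to `r` of some
  `v` are those at `x`, `y` and their conjugates (`LinkedBy`) agree simultaneously on no element of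
  the maximal real subfield `K⁺` except the rational numbers (if `K⁺` has no proper subfield except
  `ℚ`, one such pair `x`, `y` is enough);
* the even values of some `v` are those at one pair of conjugate embeddings, or at two pairs whose
  embeddings agree only on `ℚ` in `K⁺` (for two pairs, if `[K : ℚ]` is four modulo eight, it is also
  supposed that `K` has no real quadratic subfield).

Theorem. Let the `A i` be such abelian varieties and suppose that for every `i` some automorphism of
the complex numbers conjugates the embeddings of `K i` and fixes those of the other `K i'`
(`Independent`; no condition for one field). Then for all products `X` of copies of the `A i` and in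
all codimensions the Tate classes of `X`, over all finite extensions, are generated by the Tate
classes of degree two and the pull-backs, along homomorphisms from `X` to products of at most two of
the `A i`, of Tate classes on these products, where only those `i` occur for which the norm of `π i`
to some imaginary quadratic subfield of `K i` is supersingular (`HasWeil`). If four divides the
degrees of the `K i`, pull-backs from single `A i` suffice. So the Tate conjecture holds for all `X`
if no `A i` has the property `HasWeil`, and in general it follows from the Tate conjecture for the
abelian varieties `A i × A i'` (Weil classes).

Examples. (1) The slopes are `0`, `m / 2`, `m`, the middle slope occurs at one or at two pairs of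
embeddings, as above (second part of the statement, `MiddleSlopes`): for `[K : ℚ] = 2 g`, `g` the
dimension, the `p`-rank of `A` is `g - 1` (Lenstra and Zarhin) or `g - 2`. (2) `A` is ordinary, so that
the embeddings `τ` with `dev τ > 0` form a CM type `Φ`, and two conjugates of `Φ` differ at one pair,
or at two pairs of embeddings that agree only on `ℚ` in `K⁺`: there `(dev ∘ σ - dev) / (2 m)` is `±1`,
and `0` elsewhere. (3) For some prime number `r` all `dev τ`, up to a common factor, are divisible by
`r`, except at one or two pairs. (4) Sums of several conjugates give more examples: for some prime
`r`, the code of length `g` over the field with `r` elements that is generated by the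
conjugates of `dev` (scaled to integral values) has words of weight one, or words of weight two which
link all coordinates.

Idea: a multiplicative relation between the conjugates of `π` is an odd function `c` on the
embeddings, orthogonal to all Galois translates of `dev`, so also to those of `v`. Modulo `r`
orthogonality gives `v(x) c(g x) + v(y) c(g y) = 0`, respectively (modulo two, after division by two
of a sum over all embeddings) that `c(g x) + c(g y)` does not depend on `g`. A subfield through which
a combination of two relations factors modulo `r`, and the hypothesis on the linked embeddings, show
that the relations modulo `r` form a space of dimension at most one. Hence all relations are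
multiples of one, whose absolute value is constant, and which therefore comes from an imaginary
quadratic subfield.
-/

namespace Pool.Agent.Results.MP_950c68_ag.FewSlopesTateRing

open NumberField Module Pool.Agent.W527.TateRing Pool.Agent.TH776.FS Pool.Agent.TH776.FM
  Pool.Agent.TH776.FC

/-- Tate classes on products of powers of simple abelian varieties over finite fields for which
combinations of conjugate slope functions have few values prime to some prime number. -/
theorem result {p m : ℕ} [Fact p.Prime] :
    (∀ {ι : Type} [Fintype ι] (W : ι → WeilNumber p m), Independent W →
      (∀ i, FewCombined (W i)) →
      ∀ (n : ℕ), (2 ≤ n ∨ 1 ≤ n ∧ ∀ i, 4 ∣ finrank ℚ (W i).K) →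
      ∀ {Ω : Type} [Field Ω] [IsAlgClosed Ω] [CharZero Ω] (A : ι → FrobSpace Ω),
      (∀ i, IsOfType (A i) (W i)) → ∀ (J : Type) [Fintype J] (t : J → ι) (κ : Type) [Finite κ]
      (f : Coh (productOf A t) κ), Even (Nat.card κ) →
      (IsTate (p ^ m) f ↔ TRing (p ^ m) n A (fun i => HasWeil (W i)) (productOf A t) κ f)) ∧
    (0 < m → ∀ (X : WeilNumber p m) (x y : X.K →+* PadicAlgCl p), MiddleSlopes X x y →
      FewCombined X) :=
  ⟨fun _ hind hW _ hn _ _ _ _ _ hA _ _ t _ _ f hκ => isTate_iff_ring hW hind hA hn t hκ f,
    fun hm _ x y h =>
      combined_of_few (Or.inr (fewEvenValues_of_middle hm x y h.1 h.2.1 h.2.2))⟩

end Pool.Agent.Results.MP_950c68_ag.FewSlopesTateRing
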