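import Mathlib
import Pool.Agent.TH127.SC.TateMain

/-!
# Tate classes over finite fields: CM fields whose embeddings fall into small classes

Let `π i` be Weil numbers of weight `m i` with respect to the prime number `p` that generate the CM
fields `K i` (finitely many), and let `V i` be semisimple Frobenius modules with eigenvalues
conjugate to `π i`, for instance `H¹` of a simple abelian variety `A i`. `PairingsGenerate` says that
all Tate classes, over all finite extensions, in all tensor products of the `V i` (in particular in
the cohomology of all products of powers of the `A i`) are combinations of products of pairings.
For abelian varieties the pairings are classes of divisors by the theorem of Tate. Nothing is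
assumed on the slopes.

Two complex embeddings `x`, `y` of the fields `K i` are *flipped* if some automorphism of `ℂ` fixes
one of them and conjugates the other, or maps `x` to `y` and `y` to the complex conjugate of `x`. The
*classes* are those of the equivalence relation generated by not being flipped. A class is *good* if its
elements are translates of each other under the automorphisms of `ℂ`, and if it consists of `b` pairs
of conjugate embeddings where `b` is `1` or a prime number, or any two of the pairs can be moved to
any two others and `b` is odd or `b - 1` is prime or the same is true for any three pairs.

1. If all classes are good, `PairingsGenerate` is equivalent to the separation of the conjugates of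
   the norms of the `π i` to the CM subfields.
2. If moreover the `K i` have no proper CM subfields and are pairwise non-isomorphic, it is equivalent
   to: no `π i ^ 2 / p ^ m i` is a root of unity (no `A i` is supersingular).
3. For a single field `E` of degree `2 n` all classes are good if `n` is `1` or a prime number, or if
   `n` is a product of two prime numbers and the embeddings do not form one class. They do not form
   one class if some automorphism of `ℂ` maps every embedding to itself or to its conjugate, fixes one
   embedding and moves another one (that is, if the degree of the Galois closure of `E` is more than
   twice the degree of the Galois closure of the maximal real subfield).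

So for instance the Tate conjecture holds for all powers of all abelian varieties `A` over finite
fields, not supersingular, with any slopes, such that `ℚ(π)` is a CM field of degree `2 p₁ p₂`, `p₁`,
`p₂` prime numbers, without proper CM subfields, for which there is such an automorphism.

The proof: the correlations of the translates of the slope functions of two flipped embeddings
vanish, so that all linear relations between the slopes split over the classes. In a class of `b`
pairs, `b` prime, an element of order `b` permutes the pairs cyclically and the relations are
constant along its orbits; in the doubly transitive case they are multiples of one sign function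
(regular two-graphs). So every relation comes from a proper subfield, and the images of good classes
in CM subfields are good.
-/

namespace Pool.Agent.Results.MP_950c68_ag.SmallClasses

open NumberField Module Pool.Agent.W527 Pool.Agent.TH127.SC

theorem result :
    (∀ (p : ℕ) [Fact p.Prime] {I : Type} [Fintype I] {K : I → Type} [∀ i, Field (K i)]
      [∀ i, NumberField (K i)] [∀ i, IsCMField (K i)] (m : I → ℕ) (π : ∀ i, K i),
      IsWeilFamily p m π → (∀ x : Embs K, Good x) →
      -- 1
      (Norm.PairingsGenerate p m π ↔ Norm.Separated p m π) ∧
      -- 2
      (IsRigid K → (Norm.PairingsGenerate p m π ↔ NotSupersingular p m π))) ∧
    -- 3
    (∀ {E : Type} [Field E] [NumberField E] [IsCMField E],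
      (SmallDegree E → ∀ x : Embs (fun _ : Unit => E), Good x) ∧
      ((∃ τ : ℂ ≃+* ℂ, (∀ φ : E →+* ℂ, (τ : ℂ →+* ℂ).comp φ = φ ∨
          (τ : ℂ →+* ℂ).comp φ = ComplexEmbedding.conjugate φ) ∧
          (∃ φ : E →+* ℂ, (τ : ℂ →+* ℂ).comp φ = φ) ∧ ∃ φ : E →+* ℂ, (τ : ℂ →+* ℂ).comp φ ≠ φ) →
        ∃ x y : Embs (fun _ : Unit => E), ¬ SameClass x y)) :=
  ⟨fun _ _ _ _ _ _ _ _ _ _ hW h => ⟨criterion_of_good hW h, rigid_iff hW h⟩,
    ⟨fun h x => (good_of_smallDegree h x).1, not_sameClass_of_aut⟩⟩

end Pool.Agent.Results.MP_950c68_ag.SmallClasses
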