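import Pool.Agent.TH117.F5.Five

/-!
# The Tate classes on all abelian varieties of dimension at most five over finite fields, outside
an explicit exceptional case

Over an algebraic closure of the field with `p` elements each abelian variety is isogenous to the
reduction of an abelian variety of CM type (Honda, Tate), and it is determined up to isogeny by its
Frobenius endomorphism, whose valuations are given by the formula of Shimura and Taniyama. So an
abelian variety over the field with `p ^ a` elements is modelled by a finite product `X` of CM types
`(E i, Φ i)` with Weil numbers `π i ∈ E i` that satisfy this formula (`RedAV`); its rational `ℓ`-adic
Tate module, with coefficients in an algebraically closed field `Ω`, is `Ω ⊗ H_1(X, ℚ)`, on which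
the Frobenius endomorphism acts by `π`. The dimension of the abelian variety is half of the degree of
`H_1(X, ℚ)`.

Let `Y` be an abelian variety of dimension at most five, with any Newton polygon and any
decomposition. Then, for all `s` and `m`, each Tate class of degree `2 m` on `Y` over the extension of
degree `s` of the ground field (for `s = 1` these are the classes fixed by the Galois group) belongs
to the smallest system of cohomology classes of abelian varieties over finite fields that contains
the Tate classes of degree two and the reductions of the Weil classes of imaginary quadratic fields
on abelian fourfolds and sixfolds of CM type and of split Weil type, and that is stable under linear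
combinations, cup products, pull-backs along homomorphisms and push-forwards along projections,
unless `Y` is exceptional (`IsExceptional`): `Y` is a product `A × B × S` of two abelian surfaces and
a supersingular elliptic curve, the CM fields of `A` and `B` are not Galois over `ℚ` and have the
same Galois closure, and the product of two non-conjugate Frobenius eigenvalues of `B` is a
Frobenius eigenvalue of `A` times a square root of the number of elements of the ground field, up to
a root of unity.

Tate classes of degree two are combinations of classes of divisors (Tate), and the Weil classes are
algebraic by theorems of Markman. So, with these theorems, the Tate conjecture holds in all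
codimensions for all abelian varieties of dimension at most five over finite fields that are not
exceptional.
-/

namespace Pool.Agent.Results.MP_950c68_ag.UpToDimensionFive

open Pool.Agent.W495.TA Pool.Agent.W547.KB Pool.Agent.TH117.F5

/-- `Y` has dimension at most five and is not exceptional: the Tate classes `f` of degree `2 m` of
`Y` over the extension of degree `s` belong to the system generated by Tate classes of degree two and
split Weil classes. -/
theorem result (p : ℕ) [Fact p.Prime] (ν : PadicAlgCl p ≃+* ℂ) (Ω : Type) [Field Ω]
    [IsAlgClosed Ω] [CharZero Ω] (Y : RedAV p ν) (hY : Module.finrank ℚ Y.X.H1 ≤ 10)
    (hex : ¬ IsExceptional Y) (s m : ℕ) (hs : 0 < s)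
    (f : (TM Ω Y) [⋀^Fin (2 * m)]→ₗ[Ω] Ω) (hf : IsTateClass Ω Y s m f) :
    Alg Ω Y (Fin (2 * m)) f :=
  five Ω Y hY hex s m hs f hf

end Pool.Agent.Results.MP_950c68_ag.UpToDimensionFive
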